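import Pool.Graph.R_seed8.TH87.BD.Main

/-! # From two potentials to two forests -/

set_option autoImplicit false

namespace Pool.Agent.H54.RP

open SimpleGraph Pool.Agent.TH87.BD

theorem assemble {V : Type*} [Fintype V] (G : SimpleGraph V) (N : ℕ) (φ : Bool → V → ℕ)
    (hN : ∀ c v, φ c v < N) (o : Bool → V → Option V)
    (ho : ∀ c x y, o c x = some y → G.Adj x y ∧ φ c x < φ c y)
    (hG : ∀ x y, G.Adj x y → ∃ c, o c x = some y ∨ o c y = some x) :
    ∃ H₁ H₂ : SimpleGraph V, H₁ ⊔ H₂ = G ∧ Disjoint H₁ H₂ ∧ H₁.IsAcyclic ∧ H₂.IsAcyclic ∧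
      (∀ u v : V, H₁.Reachable u v → H₁.dist u v ≤ 2 * N) ∧
      (∀ u v : V, H₂.Reachable u v → H₂.dist u v ≤ 2 * N) := by
  classical
  have key : ∀ (c : Bool) (H : SimpleGraph V),
      (∀ x y, H.Adj x y → o c x = some y ∨ o c y = some x) →
      H.IsAcyclic ∧ ∀ u v : V, H.Reachable u v → H.dist u v ≤ 2 * N := by
    intro c H hH
    let q : V → Option V := fun x => (o c x).filter (fun y => decide (H.Adj x y))
    have hq : ∀ x y, q x = some y ↔ o c x = some y ∧ H.Adj x y := by
      intro x y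
      simp only [q, Option.filter_eq_some_iff, decide_eq_true_eq]
    have hpot : ∀ x y, q x = some y → (⟨φ c x, hN c x⟩ : Fin N) < ⟨φ c y, hN c y⟩ := by
      intro x y h
      exact Fin.mk_lt_mk.2 (ho c x y ((hq x y).1 h).1).2
    have hadj : ∀ x y, H.Adj x y → q x = some y ∨ q y = some x := by
      intro x y h
      rcases hH x y h with h' | h'
      · exact Or.inl ((hq x y).2 ⟨h', h⟩)
      · exact Or.inr ((hq y x).2 ⟨h', h.symm⟩)
    refine ⟨acyclic_of_pot q (fun x => (⟨φ c x, hN c x⟩ : Fin N)) hpot hadj, fun u v huv => ?_⟩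
    have := dist_of_pot q (fun x => (⟨φ c x, hN c x⟩ : Fin N)) hpot hadj
      (fun x y h => ((hq x y).1 h).2) u v huv
    rwa [Fintype.card_fin] at this
  have h1 : ∀ x y, (SimpleGraph.fromRel fun x y => o true x = some y).Adj x y ↔
      x ≠ y ∧ (o true x = some y ∨ o true y = some x) := fun x y => SimpleGraph.fromRel_adj _ _ _
  have hle : (SimpleGraph.fromRel fun x y => o true x = some y) ≤ G := by
    intro x y h
    rcases ((h1 x y).1 h).2 with h' | h'
    · exact (ho true x y h').1
    · exact (ho true y x h').1.symm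
  obtain ⟨a1, a2⟩ := key true (SimpleGraph.fromRel fun x y => o true x = some y)
    (fun x y h => ((h1 x y).1 h).2)
  obtain ⟨b1, b2⟩ := key false (G \ SimpleGraph.fromRel fun x y => o true x = some y) (by
    intro x y h
    rw [SimpleGraph.sdiff_adj] at h
    obtain ⟨c, hc⟩ := hG x y h.1
    cases c with
    | false => exact hc
    | true => exact absurd ((h1 x y).2 ⟨h.1.ne, hc⟩) h.2)
  exact ⟨_, _, sup_sdiff_cancel_right hle, disjoint_sdiff_self_right, a1, b1, a2, b2⟩

end Pool.Agent.H54.RP
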