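import Pool.Agent.H54.RP.Edge

/-! # Every edge is used -/

set_option autoImplicit false

namespace Pool.Agent.H54.RP

open SimpleGraph Pool.Agent.TH87.BD

namespace Dat

variable {V : Type*} {D : Dat V} {s t : V → ℕ} {C M : V → Bool} {W E Z : V → V} {Q : V → ℕ}

/-- the cases of a vertex which is not free, for edges of the first forest -/
theorem out_of_p1 {x y : V} (hn : D.n1 Q x = some y) (hp : D.p₁ x = some y)
    (hx : ¬ (D.Loop (D.top x) ∧ x = D.top x)) : D.Out M W E Z Q x y := by
  by_cases hf : D.Free W E x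
  · exact Or.inl ⟨hf, Or.inr hn⟩
  · unfold Free at hf
    rw [not_not] at hf
    obtain ⟨hl, h | h | h⟩ := hf
    · exact absurd ⟨hl, h⟩ hx
    · by_cases hE : E (D.top x) = x
      · exact Or.inr (Or.inr (Or.inl ⟨hl, h, hE, Or.inl hp⟩))
      · rcases hm : M (D.top x) with _ | _
        · exact Or.inr (Or.inr (Or.inr (Or.inr (Or.inl ⟨hl, h, hE, hm, Or.inl hn⟩))))
        · exact Or.inr (Or.inr (Or.inr (Or.inl ⟨hl, h, hE, hm, Or.inl hp⟩)))
    · by_cases hW : x = W (D.top x)
      · exact Or.inr (Or.inr (Or.inl ⟨hl, hW, h.symm, Or.inl hp⟩))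
      · exact Or.inr (Or.inr (Or.inr (Or.inr (Or.inr ⟨hl, h, hW, Or.inl hp⟩))))

theorem Sol.cover1 (S : D.Sol s t C M W E Z Q) {x y : V} (hp : D.p₁ x = some y) :
    D.Out M W E Z Q x y ∨ D.Out M W E Z Q y x := by
  by_cases hrev : D.Loop (D.top x) ∧ ∃ i, i < Q (D.top x) ∧ x = D.P i (D.top x)
  · obtain ⟨hl, i, hi, hxi⟩ := hrev
    right
    obtain ⟨r, hr⟩ : ∃ r, r = D.top x := ⟨_, rfl⟩
    rw [← hr] at hl hi hxi
    obtain ⟨h1, h2, h3, h4, h5, h6, h7, h8, h9, h10⟩ := S.facts hl
    have hF := S.fx r hl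
    have hyP : y = D.P (i + 1) r := by
      rw [hxi] at hp
      exact (D.P_some hp).symm
    by_cases hq : i + 1 = Q r
    · have hyE : y = E r := by rw [hyP, hq, hF.he]
      have hxZ : x = Z r := by
        rw [hxi, hF.hz]
        congr 1
        omega
      have hty : D.top y = r := by rw [hyE, h5]
      by_cases hEW : E r = W r
      · refine Or.inr (Or.inr (Or.inl ⟨?_, ?_, ?_, Or.inr ?_⟩))
        · rw [hty]; exact hl
        · rw [hty, hyE, hEW]
        · rw [hty, hyE]
        · rw [hty, hxZ]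
      · refine Or.inr (Or.inr (Or.inr (Or.inr (Or.inr ⟨?_, ?_, ?_, Or.inr ?_⟩))))
        · rw [hty]; exact hl
        · rw [hty, hyE]
        · rw [hty, hyE]; exact hEW
        · rw [hty, hxZ]
    · have hi2 : i + 1 < Q r := by omega
      have hn : D.n1 Q y = some x := by
        rw [hyP, hxi]
        exact S.n1_P hl hi2
      have hty : D.top y = r := by
        rw [hyP, hF.ch.top hi2.le, h1]
      have hly := hF.ch.level (i := i + 1) hi2.le
      have hlE := hF.ch.level (i := Q r) le_rfl
      have hyE : y ≠ E r := by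
        intro h
        rw [hF.he, hyP] at h
        rw [h] at hly
        omega
      have hyr : y ≠ r := by
        intro h
        rw [hyP] at h
        rw [h] at hly
        omega
      by_cases hyW : y = W r
      · rcases hm : M r with _ | _
        · refine Or.inr (Or.inr (Or.inr (Or.inr (Or.inl ⟨?_, ?_, ?_, ?_, Or.inl hn⟩))))
          · rw [hty]; exact hl
          · rw [hty]; exact hyW
          · rw [hty]; exact hyE.symm
          · rw [hty]; exact hm
        · exfalso
          obtain ⟨-, ⟨u, hu1, hu2, -⟩, -⟩ := hF.hm hm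
          have h11 := hF.ch (i + 1) hi2
          rw [← hyP, hyW, hu1] at h11
          have h12 := h11.2
          rw [← Option.some.inj h11.1, h1] at h12
          exact hu2 h12
      · refine Or.inl ⟨?_, Or.inr hn⟩
        unfold Free
        rw [hty]
        rintro ⟨-, h | h | h⟩
        · exact hyr h
        · exact hyW h
        · exact hyE h
  · left
    have hn : D.n1 Q x = some y := by
      unfold n1
      rw [if_neg]
      · exact hp
      · rintro ⟨hl, i, -, hi, hxi⟩
        exact hrev ⟨hl, i, hi, hxi⟩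
    refine out_of_p1 hn hp ?_
    rintro ⟨hl, hx⟩
    refine hrev ⟨hl, 0, ?_, ?_⟩
    · have := (S.fx _ hl).q1
      omega
    · rw [D.P_zero]
      exact hx

theorem Sol.cover2 (S : D.Sol s t C M W E Z Q) {x y : V} (hp : D.p₂ x = some y) :
    D.Out M W E Z Q x y ∨ D.Out M W E Z Q y x := by
  by_cases hf : D.Free W E x
  · exact Or.inl (Or.inl ⟨hf, Or.inl hp⟩)
  · unfold Free at hf
    rw [not_not] at hf
    obtain ⟨r, hr⟩ : ∃ r, r = D.top x := ⟨_, rfl⟩
    rw [← hr] at hf
    obtain ⟨hl, hf⟩ := hf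
    obtain ⟨h1, h2, h3, h4, h5, h6, h7, h8, h9, h10⟩ := S.facts hl
    have hF := S.fx r hl
    right
    by_cases hxW : x = W r
    · have hy : y = r := by
        rw [hxW, hF.hw] at hp
        exact (Option.some.inj hp).symm
      refine Or.inr (Or.inl ⟨?_, ?_, ?_⟩)
      · rw [hy, h1]; exact hl
      · rw [hy, h1]
      · rw [hy, h1]; exact hxW
    · rcases hf with h | h | h
      · rw [h, D.none_of_zero hl.1] at hp
        exact absurd hp (by simp)
      · exact absurd h hxW
      · have hEW : E r ≠ W r := by rw [← h]; exact hxW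
        have hy : y = W r := by
          rw [h, (h10 hEW).1] at hp
          exact (Option.some.inj hp).symm
        have hty : D.top y = r := by rw [hy, h2]
        rcases hm : M r with _ | _
        · refine Or.inr (Or.inr (Or.inr (Or.inr (Or.inl ⟨?_, ?_, ?_, ?_, Or.inr ?_⟩))))
          · rw [hty]; exact hl
          · rw [hty]; exact hy
          · rw [hty, hy]; exact hEW
          · rw [hty]; exact hm
          · rw [hty]; exact h
        · refine Or.inr (Or.inr (Or.inr (Or.inl ⟨?_, ?_, ?_, ?_, Or.inr ?_⟩)))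
          · rw [hty]; exact hl
          · rw [hty]; exact hy
          · rw [hty, hy]; exact hEW
          · rw [hty]; exact hm
          · rw [hty]; exact h

theorem Sol.cover (S : D.Sol s t C M W E Z Q) {x y : V} (h : (D.A ⊔ D.B).Adj x y) :
    D.Out M W E Z Q x y ∨ D.Out M W E Z Q y x := by
  rcases h with h | h
  · rcases D.h1' x y h with h | h
    · exact S.cover1 h
    · exact (S.cover1 h).symm
  · rcases D.h2' x y h with h | h
    · exact S.cover2 h
    · exact (S.cover2 h).symm

theorem Sol.result [Fintype V] (S : D.Sol s t C M W E Z Q) :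
    ∃ H₁ H₂ : SimpleGraph V, H₁ ⊔ H₂ = D.A ⊔ D.B ∧ Disjoint H₁ H₂ ∧ H₁.IsAcyclic ∧
      H₂.IsAcyclic ∧ (∀ u v : V, H₁.Reachable u v → H₁.dist u v ≤ 2 * 17280) ∧
      (∀ u v : V, H₂.Reachable u v → H₂.dist u v ≤ 2 * 17280) := by
  choose f hf using fun v => S.good v
  refine assemble (D.A ⊔ D.B) 17280 (D.pot s t C M W E) (fun c v => S.pot_lt c v)
    (fun c v => f v c) (fun c x y h => (hf x).1 c y h) (fun x y h => ?_)
  rcases S.cover h with h | h
  · obtain ⟨c, hc⟩ := (hf x).2 y h
    exact ⟨c, Or.inl hc⟩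
  · obtain ⟨c, hc⟩ := (hf y).2 x h
    exact ⟨c, Or.inr hc⟩

end Dat

end Pool.Agent.H54.RP
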