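import Pool.Agent.H54.RP.Asm

/-! # Two rooted forests, the second one of depth at most two -/

set_option autoImplicit false

namespace Pool.Agent.H54.RP

open SimpleGraph Pool.Agent.TH87.BD

/-- Two rooted forests, the second one of depth at most two. -/
structure Dat (V : Type*) where
  A : SimpleGraph V
  B : SimpleGraph V
  hAB : Disjoint A B
  p₁ : V → Option V
  p₂ : V → Option V
  l₁ : V → ℕ
  l₂ : V → ℕ
  h1 : ∀ x y, p₁ x = some y → A.Adj x y ∧ l₁ x = l₁ y + 1
  h1' : ∀ x y, A.Adj x y → p₁ x = some y ∨ p₁ y = some x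
  h2 : ∀ x y, p₂ x = some y → B.Adj x y ∧ l₂ x = l₂ y + 1
  h2' : ∀ x y, B.Adj x y → p₂ x = some y ∨ p₂ y = some x
  h0 : ∀ x, p₂ x = none → l₂ x = 0
  hd : ∀ x, l₂ x ≤ 2

namespace Dat

variable {V : Type*} (D : Dat V)

/-- the root of the tree of the second forest -/
def top (v : V) : V := (up D.p₂)^[D.l₂ v] v

/-- the ancestor of level one (of vertices of level one and two) -/
def mid (v : V) : V := if D.l₂ v = 2 then up D.p₂ v else v

theorem disj {x y : V} (h : D.A.Adj x y) (h' : D.B.Adj x y) : False :=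
  (SimpleGraph.disjoint_left.1 D.hAB x y h) h'

theorem up_eq {x y : V} (h : D.p₂ x = some y) : up D.p₂ x = y := by simp [up, h]

theorem top_step {x y : V} (h : D.p₂ x = some y) : D.top x = D.top y := by
  have h1 := (D.h2 x y h).2
  rw [top, top, h1, Function.iterate_succ_apply, D.up_eq h]

theorem top_zero {x : V} (h : D.l₂ x = 0) : D.top x = x := by
  rw [top, h]; rfl

theorem none_of_zero {x : V} (h : D.l₂ x = 0) : D.p₂ x = none := by
  rcases hx : D.p₂ x with _ | y
  · rfl
  · have := (D.h2 x y hx).2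
    omega

theorem some_of_pos {x : V} (h : 0 < D.l₂ x) : ∃ y, D.p₂ x = some y ∧ D.l₂ x = D.l₂ y + 1 := by
  rcases hx : D.p₂ x with _ | y
  · have := D.h0 x hx
    omega
  · exact ⟨y, rfl, (D.h2 x y hx).2⟩

theorem level_top (x : V) : D.l₂ (D.top x) = 0 := by
  induction hn : D.l₂ x generalizing x with
  | zero => rw [D.top_zero hn, hn]
  | succ n ih =>
    obtain ⟨y, hy, hl⟩ := D.some_of_pos (x := x) (by omega)
    rw [D.top_step hy]
    exact ih y (by omega)

theorem top_top (x : V) : D.top (D.top x) = D.top x := D.top_zero (D.level_top x)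

theorem mid_one {x : V} (h : D.l₂ x = 1) : D.mid x = x := by
  rw [mid, if_neg (by omega)]

theorem mid_two {x y : V} (h : D.l₂ x = 2) (hy : D.p₂ x = some y) : D.mid x = y := by
  rw [mid, if_pos h, D.up_eq hy]

theorem level_mid {x : V} (h : 1 ≤ D.l₂ x) : D.l₂ (D.mid x) = 1 := by
  have h2 := D.hd x
  by_cases h3 : D.l₂ x = 1
  · rw [D.mid_one h3, h3]
  · obtain ⟨y, hy, hl⟩ := D.some_of_pos (x := x) (by omega)
    rw [D.mid_two (by omega) hy]
    omega

theorem top_mid {x : V} (h : 1 ≤ D.l₂ x) : D.top (D.mid x) = D.top x := by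
  have h2 := D.hd x
  by_cases h3 : D.l₂ x = 1
  · rw [D.mid_one h3]
  · obtain ⟨y, hy, hl⟩ := D.some_of_pos (x := x) (by omega)
    rw [D.mid_two (by omega) hy, D.top_step hy]

/-- a neighbour in the first forest is not below -/
theorem mid_ne {v u : V} (hv : D.l₂ v = 1) (hu : 1 ≤ D.l₂ u) (h : D.A.Adj v u) : D.mid u ≠ v := by
  intro he
  have h2 := D.hd u
  by_cases h3 : D.l₂ u = 1
  · rw [D.mid_one h3] at he
    exact h.ne he.symm
  · obtain ⟨y, hy, hl⟩ := D.some_of_pos (x := u) (by omega)
    rw [D.mid_two (by omega) hy] at he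
    subst he
    exact D.disj h (D.h2 u y hy).1.symm

/-- the path of the first forest -/
def P (i : ℕ) (r : V) : V := (up D.p₁)^[i] r

theorem P_zero (r : V) : D.P 0 r = r := rfl

theorem P_succ (i : ℕ) (r : V) : D.P (i + 1) r = up D.p₁ (D.P i r) :=
  Function.iterate_succ_apply' _ _ _

theorem P_some {i : ℕ} {r y : V} (h : D.p₁ (D.P i r) = some y) : D.P (i + 1) r = y := by
  rw [D.P_succ]
  simp [up, h]

/-- The path of `r` runs to its vertex of number `n` inside the tree of `r`. -/
def Chain (n : ℕ) (r : V) : Prop :=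
  ∀ i, i < n → D.p₁ (D.P i r) = some (D.P (i + 1) r) ∧ D.top (D.P (i + 1) r) = D.top r

variable {D}

theorem Chain.mono {n m : ℕ} {r : V} (h : D.Chain n r) (hm : m ≤ n) : D.Chain m r :=
  fun i hi => h i (hi.trans_le hm)

theorem Chain.top {n i : ℕ} {r : V} (h : D.Chain n r) (hi : i ≤ n) :
    D.top (D.P i r) = D.top r := by
  rcases i with _ | i
  · rfl
  · exact (h i (by omega)).2

theorem Chain.level {n i : ℕ} {r : V} (h : D.Chain n r) (hi : i ≤ n) :
    D.l₁ (D.P i r) + i = D.l₁ r := by
  induction i with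
  | zero => rfl
  | succ i ih =>
    have h1 := ih (by omega)
    have h2 := (D.h1 _ _ (h i (by omega)).1).2
    omega

variable (D)

theorem exists_tau (r : V) : ∃ n, D.Chain n r ∧
    ∀ y, D.p₁ (D.P n r) = some y → D.top y ≠ D.top r := by
  induction hn : D.l₁ r generalizing r with
  | zero =>
    refine ⟨0, fun i hi => absurd hi (Nat.not_lt_zero _), fun y hy => ?_⟩
    have := (D.h1 _ _ hy).2
    rw [D.P_zero] at this
    omega
  | succ n ih =>
    rcases hp : D.p₁ r with _ | y
    · exact ⟨0, fun i hi => absurd hi (Nat.not_lt_zero _), fun y hy => by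
        rw [D.P_zero, hp] at hy
        exact absurd hy (by simp)⟩
    · by_cases ht : D.top y = D.top r
      · obtain ⟨m, hm1, hm2⟩ := ih y (by have := (D.h1 _ _ hp).2; omega)
        have hP : ∀ i, D.P (i + 1) r = D.P i y := by
          intro i
          show (up D.p₁)^[i + 1] r = (up D.p₁)^[i] y
          rw [Function.iterate_succ_apply]
          congr 1
          simp [up, hp]
        refine ⟨m + 1, fun i hi => ?_, fun z hz => ?_⟩
        · rcases i with _ | i
          · refine ⟨?_, ?_⟩
            · rw [hP 0, D.P_zero, D.P_zero]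
              exact hp
            · rw [hP 0, D.P_zero]
              exact ht
          · rw [hP, hP]
            have := hm1 i (by omega)
            exact ⟨this.1, this.2.trans ht⟩
        · rw [hP] at hz
          rw [← ht]
          exact hm2 z hz
      · refine ⟨0, fun i hi => absurd hi (Nat.not_lt_zero _), fun z hz => ?_⟩
        rw [D.P_zero, hp] at hz
        rw [← Option.some.inj hz]
        exact ht

end Dat

end Pool.Agent.H54.RP
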