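import Pool.Agent.H54.RP.Step

/-! # Every vertex has at most one new edge of each colour -/

set_option autoImplicit false

namespace Pool.Agent.H54.RP

open SimpleGraph Pool.Agent.TH87.BD

namespace Dat

variable {V : Type*} {D : Dat V} {s t : V → ℕ} {C M : V → Bool} {W E Z : V → V} {Q : V → ℕ}

/-- a good choice of new edges at `v` -/
def Good (D : Dat V) (s t : V → ℕ) (C M : V → Bool) (W E Z : V → V) (Q : V → ℕ) (v : V)
    (f : Bool → Option V) : Prop :=
  (∀ c y, f c = some y → (D.A ⊔ D.B).Adj v y ∧ D.pot s t C M W E c v < D.pot s t C M W E c y) ∧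
    ∀ y, D.Out M W E Z Q v y → ∃ c, f c = some y

theorem good_of (v : V) (c : Bool) (a b : Option V)
    (ha : ∀ y, a = some y → (D.A ⊔ D.B).Adj v y ∧ D.pot s t C M W E c v < D.pot s t C M W E c y)
    (hb : ∀ y, b = some y → (D.A ⊔ D.B).Adj v y ∧
      D.pot s t C M W E (!c) v < D.pot s t C M W E (!c) y)
    (ho : ∀ y, D.Out M W E Z Q v y → a = some y ∨ b = some y) :
    ∃ f, D.Good s t C M W E Z Q v f := by
  refine ⟨fun x => if x = c then a else b, fun x y h => ?_, fun y h => ?_⟩
  · by_cases hx : x = c
    · subst hx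
      simp only [if_true] at h
      exact ha y h
    · simp only [if_neg hx] at h
      have : x = !c := by cases x <;> cases c <;> simp_all
      rw [this]
      exact hb y h
  · rcases ho y h with h | h
    · exact ⟨c, by simp [h]⟩
    · refine ⟨!c, ?_⟩
      have : ¬ (!c) = c := by cases c <;> simp
      simp only [if_neg this]
      exact h

theorem adj1 {v y : V} (h : D.p₁ v = some y) : (D.A ⊔ D.B).Adj v y := Or.inl (D.h1 v y h).1

theorem adj2 {v y : V} (h : D.p₂ v = some y) : (D.A ⊔ D.B).Adj v y := Or.inr (D.h2 v y h).1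

theorem Sol.good_free (S : D.Sol s t C M W E Z Q) (v : V) (hv : D.Free W E v) :
    ∃ f, D.Good s t C M W E Z Q v f := by
  have hout : ∀ y, D.Out M W E Z Q v y → D.n1 Q v = some y ∨ D.p₂ v = some y := by
    intro y hy
    rcases hy with h | h | h | h | h | h
    · exact h.2.symm
    · exact absurd ⟨h.1, Or.inl h.2.1⟩ hv
    · exact absurd ⟨h.1, Or.inr (Or.inl h.2.1)⟩ hv
    · exact absurd ⟨h.1, Or.inr (Or.inl h.2.1)⟩ hv
    · exact absurd ⟨h.1, Or.inr (Or.inl h.2.1)⟩ hv
    · exact absurd ⟨h.1, Or.inr (Or.inr h.2.1)⟩ hv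
  rcases hn : D.n1 Q v with _ | u
  · refine good_of v true none (D.p₂ v) (fun y hy => absurd hy (by simp))
      (fun y hy => ⟨adj2 hy, S.up_lt hv hy _⟩) (fun y hy => ?_)
    have := hout y hy
    rwa [hn] at this
  · obtain ⟨c, hc⟩ := S.dich hv hn
    refine good_of v c (some u) (D.p₂ v) (fun y hy => ?_)
      (fun y hy => ⟨adj2 hy, S.up_lt hv hy _⟩) (fun y hy => ?_)
    · rw [← Option.some.inj hy]
      exact ⟨Or.inl (S.n1_adj hn), hc⟩
    · have := hout y hy
      rwa [hn] at this

theorem Sol.good_root (S : D.Sol s t C M W E Z Q) (r : V) (hl : D.Loop r) :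
    ∃ f, D.Good s t C M W E Z Q r f := by
  obtain ⟨h1, h2, h3, h4, h5, h6, h7, h8, h9, h10⟩ := S.facts hl
  have hF := S.fx r hl
  refine good_of r (C r) (some (W r)) none (fun y hy => ?_) (fun y hy => absurd hy (by simp))
    (fun y hy => ?_)
  · rw [← Option.some.inj hy]
    refine ⟨Or.inr (D.h2 _ _ hF.hw).1.symm, ?_⟩
    rw [(S.pot_W hl).1]
    unfold pot
    rw [h1, if_neg (fun h => h9 h.2.1.symm), if_neg (fun h => h8 h.2.1.symm),
      if_neg (fun h => h8 h.2.1.symm)]
    unfold base
    rw [h1, if_neg (by rw [hl.1]; omega), if_neg (by rw [hl.1]; omega)]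
    omega
  · left
    rcases hy with h | h | h | h | h | h
    · exact absurd ⟨by rw [h1]; exact hl, Or.inl h1.symm⟩ h.1
    · rw [h.2.2, h1]
    · exact absurd (h.2.1.trans (by rw [h1])).symm h9
    · exact absurd (h.2.1.trans (by rw [h1])).symm h9
    · exact absurd (h.2.1.trans (by rw [h1])).symm h9
    · exact absurd (h.2.1.trans (by rw [h1])).symm h8

theorem Sol.good_W (S : D.Sol s t C M W E Z Q) (r : V) (hl : D.Loop r) :
    ∃ f, D.Good s t C M W E Z Q (W r) f := by
  obtain ⟨h1, h2, h3, h4, h5, h6, h7, h8, h9, h10⟩ := S.facts hl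
  have hF := S.fx r hl
  have hnf : ¬ D.Free W E (W r) := fun h => h ⟨by rw [h2]; exact hl, by rw [h2]; exact Or.inr (Or.inl rfl)⟩
  have hhigh : ∀ y, D.top y = r → D.A.Adj (W r) y →
      1728 * dig (!C r) (s r) + 144 ≤ D.pot s t C M W E (!C r) y := by
    intro y hy hadj
    refine S.high hl hy ?_
    by_cases h0 : D.l₂ y = 0
    · exact Or.inl h0
    · exact Or.inr (D.mid_ne h3 (by omega) hadj)
  have hpW := S.pot_W hl
  have hext : ∀ (c : Bool) (y : V), dig c (s r) < dig c (s (D.top y)) →
      D.pot s t C M W E c (W r) < D.pot s t C M W E c y := fun c y h =>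
    S.ext_lt c (by rw [h2]; exact h)
  by_cases hEW : E r = W r
  · -- one turned vertex
    refine good_of (W r) (C r) (D.p₁ (W r)) (some (Z r)) (fun y hy => ?_) (fun y hy => ?_)
      (fun y hy => ?_)
    · refine ⟨adj1 hy, ?_⟩
      rcases hF.hpe y (by rw [hEW]; exact hy) with h | h
      · exact hext _ _ h
      · exfalso
        have h11 := (hF.hm h.1).1
        rw [hEW] at h11
        have := (D.h2 _ _ h11).2
        omega
    · rw [← Option.some.inj hy]
      rw [hEW] at h7
      refine ⟨Or.inl h7, ?_⟩
      have := hhigh (Z r) h6 h7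
      rw [hpW.2]
      omega
    · rcases hy with h | h | h | h | h | h
      · exact absurd h.1 hnf
      · exact absurd (h.2.1.trans h2) h9
      · rcases h.2.2.2 with h | h
        · exact Or.inl h
        · right
          rw [h, h2]
      · exact absurd (by rw [h2]; exact hEW) h.2.2.1
      · exact absurd (by rw [h2]; exact hEW) h.2.2.1
      · exact absurd (by rw [h2]) h.2.2.1
  · obtain ⟨h11, h12, h13⟩ := h10 hEW
    have hpE := S.pot_E hl hEW
    rcases hm : M r with _ | _
    · -- M false
      refine good_of (W r) (C r) (some (E r)) (D.n1 Q (W r)) (fun y hy => ?_) (fun y hy => ?_)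
        (fun y hy => ?_)
      · rw [← Option.some.inj hy]
        refine ⟨Or.inr (D.h2 _ _ h11).1.symm, ?_⟩
        rw [hpW.1, (hpE.1 hm).1]
        omega
      · have hadj := S.n1_adj hy
        refine ⟨Or.inl hadj, ?_⟩
        by_cases hrv : D.Rv Q (W r)
        · have h14 := S.n1_top hrv hy
          rw [h2] at h14
          have := hhigh y h14 hadj
          rw [hpW.2]
          omega
        · unfold n1 at hy
          rw [if_neg hrv] at hy
          rcases hF.hn hm h11 y hy with h | h
          · have := hhigh y h hadj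
            rw [hpW.2]
            omega
          · exact hext _ _ h
      · rcases hy with h | h | h | h | h | h
        · exact absurd h.1 hnf
        · exact absurd (h.2.1.trans h2) h9
        · exact absurd (by rw [h2] at h; exact h.2.2.1) hEW
        · have := h.2.2.2.1
          rw [h2, hm] at this
          exact absurd this (by simp)
        · rcases h.2.2.2.2 with h | h
          · exact Or.inr h
          · left
            rw [h, h2]
        · exact absurd (by rw [h2]) h.2.2.1
    · -- M true
      refine good_of (W r) (C r) (D.p₁ (W r)) (some (E r)) (fun y hy => ?_) (fun y hy => ?_)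
        (fun y hy => ?_)
      · refine ⟨adj1 hy, ?_⟩
        obtain ⟨-, ⟨u, hu1, hu2, hu3⟩, -⟩ := hF.hm hm
        have : u = y := Option.some.inj (hu1.symm.trans hy)
        rw [← this]
        exact hext _ _ hu3
      · rw [← Option.some.inj hy]
        refine ⟨Or.inr (D.h2 _ _ h11).1.symm, ?_⟩
        rw [hpW.2, (hpE.2 hm).2]
        omega
      · rcases hy with h | h | h | h | h | h
        · exact absurd h.1 hnf
        · exact absurd (h.2.1.trans h2) h9
        · exact absurd (by rw [h2] at h; exact h.2.2.1) hEW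
        · rcases h.2.2.2.2 with h | h
          · exact Or.inl h
          · right
            rw [h, h2]
        · have := h.2.2.2.1
          rw [h2, hm] at this
          exact absurd this (by simp)
        · exact absurd (by rw [h2]) h.2.2.1

theorem Sol.good_E (S : D.Sol s t C M W E Z Q) (r : V) (hl : D.Loop r) (hEW : E r ≠ W r) :
    ∃ f, D.Good s t C M W E Z Q (E r) f := by
  obtain ⟨h1, h2, h3, h4, h5, h6, h7, h8, h9, h10⟩ := S.facts hl
  have hF := S.fx r hl
  have hnf : ¬ D.Free W E (E r) := fun h => h ⟨by rw [h5]; exact hl, by rw [h5]; exact Or.inr (Or.inr rfl)⟩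
  have hpW := S.pot_W hl
  have hext : ∀ (c : Bool) (y : V), dig c (s r) < dig c (s (D.top y)) →
      D.pot s t C M W E c (E r) < D.pot s t C M W E c y := fun c y h =>
    S.ext_lt c (by rw [h5]; exact h)
  obtain ⟨h11, h12, h13⟩ := h10 hEW
  have hpE := S.pot_E hl hEW
  have hdW := S.dig_W hl
  have hZW : Z r ≠ W r := by
    intro h
    rw [h] at h7
    exact D.disj h7 (D.h2 _ _ h11).1
  have hL2 : ∀ y, D.top y = r → y ≠ E r → D.L2 t C M E y = t y := by
    intro y hy hne
    unfold L2
    rw [if_neg]
    rw [hy]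
    exact fun h => hne h.2
  refine good_of (E r) (C r) (D.p₁ (E r)) (some (Z r)) (fun y hy => ?_) (fun y hy => ?_)
    (fun y hy => ?_)
  · refine ⟨adj1 hy, ?_⟩
    rcases hF.hpe y hy with h | ⟨hm, h⟩
    · exact hext _ _ h
    · have h14 := (D.h2 _ _ h).2
      have h15 : D.mid y = W r := D.mid_two (by omega) h
      have h16 : D.top y = r := by rw [D.top_step h, h2]
      have h17 := hL2 y h16 (D.h1 _ _ hy).1.ne.symm
      have h18 := dig_mid (S.ht y) (C r)
      refine lt_of_lt_of_le ?_ (S.base_le_pot _ y)
      rw [(hpE.2 hm).1]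
      unfold base
      rw [h16, h15, if_pos (by omega : 1 ≤ D.l₂ y), if_pos (by omega : D.l₂ y = 2), hdW.2, h17]
      omega
  · rw [← Option.some.inj hy]
    refine ⟨Or.inl h7, ?_⟩
    rcases hm : M r with _ | _
    · rw [(hpE.1 hm).2]
      refine lt_of_lt_of_le ?_ (S.base_le_pot _ (Z r))
      unfold base
      rw [h6, hL2 (Z r) h6 h7.ne.symm]
      have h18 := dig_mid (S.ht (Z r)) (!C r)
      split_ifs <;> omega
    · have h19 := S.high hl h6 (by
        by_cases h0 : D.l₂ (Z r) = 0
        · exact Or.inl h0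
        · right
          intro h
          have h20 := D.hd (Z r)
          by_cases h21 : D.l₂ (Z r) = 1
          · rw [D.mid_one h21] at h
            exact hZW h
          · obtain ⟨w, hw, -⟩ := D.some_of_pos (x := Z r) (by omega)
            rw [D.mid_two (by omega) hw] at h
            rw [h] at hw
            exact (hF.hm hm).2.2 hw)
      rw [(hpE.2 hm).2]
      omega
  · rcases hy with h | h | h | h | h | h
    · exact absurd h.1 hnf
    · exact absurd (h.2.1.trans h5) h8
    · exact absurd (by rw [h5] at h; exact h.2.1) hEW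
    · exact absurd (by rw [h5] at h; exact h.2.1) hEW
    · exact absurd (by rw [h5] at h; exact h.2.1) hEW
    · rcases h.2.2.2 with h | h
      · exact Or.inl h
      · right
        rw [h, h5]

theorem Sol.good (S : D.Sol s t C M W E Z Q) (v : V) : ∃ f, D.Good s t C M W E Z Q v f := by
  by_cases hv : D.Free W E v
  · exact S.good_free v hv
  · unfold Free at hv
    rw [not_not] at hv
    obtain ⟨hl, h | h | h⟩ := hv
    · rw [h]
      exact S.good_root _ hl
    · rw [h]
      exact S.good_W _ hl
    · by_cases hEW : E (D.top v) = W (D.top v)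
      · rw [h, hEW]
        exact S.good_W _ hl
      · rw [h]
        exact S.good_E _ hl hEW

end Dat

end Pool.Agent.H54.RP
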