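import Pool.Agent.H54.RP.Cover

/-! # The repartition of a forest and a forest of depth at most two -/

set_option autoImplicit false

namespace Pool.Agent.H54.RP

open SimpleGraph Pool.Agent.TH87.BD

namespace Dat

variable {V : Type*} {D : Dat V}

theorem n1_adj' {s : V → ℕ} {C M : V → Bool} {W E Z : V → V} {Q : V → ℕ}
    (fx : ∀ r, D.Loop r → D.Fx s r (C r) (M r) (W r) (E r) (Z r) (Q r)) {v u : V}
    (hu : D.n1 Q v = some u) : D.A.Adj v u := by
  unfold n1 at hu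
  by_cases hv : D.Rv Q v
  · rw [if_pos hv] at hu
    obtain ⟨hl, i, hi1, hi2, hi3⟩ := hv
    have hF := fx _ hl
    obtain ⟨j, rfl⟩ : ∃ j, i = j + 1 := ⟨i - 1, by omega⟩
    have h1 := hF.ch.level (i := j + 1) hi2.le
    rw [← hi3] at h1
    have h2 : D.l₁ (D.top v) - D.l₁ v - 1 = j := by omega
    rw [h2] at hu
    have h3 := (D.h1 _ _ (hF.ch j (by omega)).1).1
    rw [← hi3, Option.some.inj hu] at h3
    exact h3.symm
  · rw [if_neg hv] at hu
    exact (D.h1 _ _ hu).1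

theorem exists_sol [Fintype V] (D : Dat V) :
    ∃ (s t : V → ℕ) (C M : V → Bool) (W E Z : V → V) (Q : V → ℕ), D.Sol s t C M W E Z Q := by
  classical
  choose τ hτ using D.exists_tau
  obtain ⟨σa, ha⟩ := three fun r => ((D.p₁ (D.P (τ r) r)).map D.top).getD r
  obtain ⟨σb, hb⟩ := three fun r => (((D.p₂ (D.P (τ r) r)).bind D.p₁).map D.top).getD r
  obtain ⟨s, hsdef⟩ : ∃ s : V → ℕ, ∀ x, s x = 3 * (σa x).val + (σb x).val + 1 := ⟨_, fun x => rfl⟩
  have hs : ∀ x, 1 ≤ s x ∧ s x ≤ 9 := by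
    intro x
    have := (σa x).isLt
    have := (σb x).isLt
    rw [hsdef]
    omega
  have hsa : ∀ x y, σa x ≠ σa y → s x ≠ s y := by
    intro x y h h'
    apply h
    rw [hsdef, hsdef] at h'
    have := (σb x).isLt
    have := (σb y).isLt
    exact Fin.ext (by omega)
  have hsb : ∀ x y, σb x ≠ σb y → s x ≠ s y := by
    intro x y h h'
    apply h
    rw [hsdef, hsdef] at h'
    have := (σb x).isLt
    have := (σb y).isLt
    exact Fin.ext (by omega)
  have k1 : ∀ r y, D.p₁ (D.P (τ r) r) = some y → D.top y ≠ r → s r ≠ s (D.top y) := by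
    intro r y hy hne
    have h := ha r
    simp only [hy, Option.map_some, Option.getD_some] at h
    exact hsa _ _ (h hne)
  have k2 : ∀ r w u, D.p₂ (D.P (τ r) r) = some w → D.p₁ w = some u → D.top u ≠ r →
      s r ≠ s (D.top u) := by
    intro r w u hw hu hne
    have h := hb r
    simp only [hw, Option.bind_some, hu, Option.map_some, Option.getD_some] at h
    exact hsb _ _ (h hne)
  have hfix : ∀ r, ∃ (c m : Bool) (w e z : V) (q : ℕ), D.Loop r → D.Fx s r c m w e z q := by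
    intro r
    by_cases hl : D.Loop r
    · have htr : D.top r = r := D.top_zero hl.1
      obtain ⟨c, m, w, e, z, q, h⟩ := D.exists_fix s (fun x => by have := hs x; omega) r hl (τ r)
        (hτ r).1 (hτ r).2 (fun y hy => k1 r y hy (by
          have := (hτ r).2 y hy
          rwa [htr] at this)) (fun w u hw hu hne => k2 r w u hw hu hne)
      exact ⟨c, m, w, e, z, q, fun _ => h⟩
    · exact ⟨true, true, r, r, r, 0, fun h => absurd h hl⟩
  choose C M W E Z Q fx using hfix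
  obtain ⟨σ, hσ⟩ := three fun v => ((D.n1 Q v).map fun u =>
    if D.l₂ v = 1 ∧ 1 ≤ D.l₂ u then D.mid u else if D.l₂ v = 2 ∧ D.l₂ u = 2 then u else v).getD v
  refine ⟨s, fun x => (σ x).val + 1, C, M, W, E, Z, Q, hs, fun x => ?_, fx, ?_, ?_, ?_⟩
  · have := (σ x).isLt
    omega
  · intro r u hr hl hu
    have htr : D.top r = r := D.top_zero hr
    have hτ0 : τ r = 0 := by
      by_contra hcon
      have h1 := (hτ r).1 0 (by omega)
      rw [D.P_zero, htr] at h1
      exact hl ⟨hr, _, h1.1, h1.2⟩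
    refine k1 r u ?_ fun h => hl ⟨hr, u, hu, h⟩
    rw [hτ0, D.P_zero]
    exact hu
  · intro v u hv hu hn h
    have h1 := hσ v
    simp only [hn, Option.map_some, Option.getD_some, if_pos (show D.l₂ v = 1 ∧ 1 ≤ D.l₂ u from ⟨hv, hu⟩)] at h1
    refine h1 (D.mid_ne hv hu (n1_adj' fx hn)) (Fin.ext ?_)
    omega
  · intro v u hv hu hn h
    have h1 := hσ v
    simp only [hn, Option.map_some, Option.getD_some, if_neg (show ¬ (D.l₂ v = 1 ∧ 1 ≤ D.l₂ u) by omega),
      if_pos (show D.l₂ v = 2 ∧ D.l₂ u = 2 from ⟨hv, hu⟩)] at h1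
    refine h1 (n1_adj' fx hn).ne.symm (Fin.ext ?_)
    omega

end Dat

/-- The union of a forest and a forest with components of diameter at most four. -/
theorem repartition_four {V : Type*} [Fintype V] (F₁ F₂ : SimpleGraph V) (hF₁ : F₁.IsAcyclic)
    (hF₂ : F₂.IsAcyclic) (hd : ∀ u v : V, F₂.Reachable u v → F₂.dist u v ≤ 4) :
    ∃ H₁ H₂ : SimpleGraph V, H₁ ⊔ H₂ = F₁ ⊔ F₂ ∧ Disjoint H₁ H₂ ∧ H₁.IsAcyclic ∧
      H₂.IsAcyclic ∧ (∀ u v : V, H₁.Reachable u v → H₁.dist u v ≤ 34560) ∧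
      (∀ u v : V, H₂.Reachable u v → H₂.dist u v ≤ 34560) := by
  classical
  have hA : (F₁ \ F₂).IsAcyclic := hF₁.anti sdiff_le
  obtain ⟨p₁, l₁, h1, -, h1'⟩ := exists_rooting (F₁ \ F₂) hA
  obtain ⟨r, hr, hrr, hrd⟩ := exists_center F₂ hF₂ 4 hd
  obtain ⟨p₂, l₂, h2, h0, h2', hl2⟩ := exists_rooting_at F₂ hF₂ r hr hrr
  obtain ⟨s, t, C, M, W, E, Z, Q, S⟩ := Dat.exists_sol
    (⟨F₁ \ F₂, F₂, disjoint_sdiff_self_left, p₁, p₂, l₁, l₂, h1, h1', h2, h2', h0,
      fun x => (hl2 x).trans_le (hrd x)⟩ : Dat V)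
  obtain ⟨H₁, H₂, h3, h4⟩ := S.result
  refine ⟨H₁, H₂, ?_, h4⟩
  rw [h3]
  show (F₁ \ F₂) ⊔ F₂ = F₁ ⊔ F₂
  exact sdiff_sup_self _ _

end Pool.Agent.H54.RP
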