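import Pool.Agent.H54.RP.Dat

/-! # The place where the path of a root is turned -/

set_option autoImplicit false

namespace Pool.Agent.H54.RP

open SimpleGraph Pool.Agent.TH87.BD

/-- the digit of a letter in the order of the colour `c` -/
def dig (c : Bool) (k : ℕ) : ℕ := if c = true then k else 10 - k

theorem dig_true (k : ℕ) : dig true k = k := rfl

theorem dig_false (k : ℕ) : dig false k = 10 - k := rfl

theorem dig_ne {a b : ℕ} (ha : a ≤ 10) (hb : b ≤ 10) (h : a ≠ b) (c : Bool)
    (hc : ¬ dig c a < dig c b) : dig (!c) a < dig (!c) b := by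
  cases c
  · rw [dig_false, dig_false] at hc
    rw [Bool.not_false, dig_true, dig_true]
    omega
  · rw [dig_true, dig_true] at hc
    rw [Bool.not_true, dig_false, dig_false]
    omega

namespace Dat

variable {V : Type*} (D : Dat V)

/-- the parent of the root `r` in the first forest lies in the tree of `r` -/
def Loop (r : V) : Prop := D.l₂ r = 0 ∧ ∃ y, D.p₁ r = some y ∧ D.top y = r

structure Fx (s : V → ℕ) (r : V) (c m : Bool) (w e z : V) (q : ℕ) : Prop where
  q1 : 1 ≤ q
  ch : D.Chain q r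
  he : e = D.P q r
  hz : z = D.P (q - 1) r
  hw : D.p₂ w = some r
  hew : e = w ∨ D.p₂ e = some w
  hpe : ∀ y, D.p₁ e = some y → dig c (s r) < dig c (s (D.top y)) ∨ (m = true ∧ D.p₂ y = some w)
  hm : m = true → D.p₂ e = some w ∧ (∃ u, D.p₁ w = some u ∧ D.top u ≠ r ∧
    dig c (s r) < dig c (s (D.top u))) ∧ D.p₂ z ≠ some w
  hn : m = false → D.p₂ e = some w → ∀ u, D.p₁ w = some u →
    D.top u = r ∨ dig (!c) (s r) < dig (!c) (s (D.top u))

theorem exists_fix (s : V → ℕ) (hs : ∀ x, s x ≤ 10) (r : V) (hl : D.Loop r) (n : ℕ)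
    (hn : D.Chain n r) (hx : ∀ y, D.p₁ (D.P n r) = some y → D.top y ≠ D.top r)
    (k1 : ∀ y, D.p₁ (D.P n r) = some y → s r ≠ s (D.top y))
    (k2 : ∀ w u, D.p₂ (D.P n r) = some w → D.p₁ w = some u → D.top u ≠ r → s r ≠ s (D.top u)) :
    ∃ (c m : Bool) (w e z : V) (q : ℕ), D.Fx s r c m w e z q := by
  classical
  obtain ⟨hr0, y0, hy0, hty0⟩ := hl
  have htr : D.top r = r := D.top_zero hr0
  have hn1 : 1 ≤ n := by
    rcases n with _ | n
    · exact absurd (hty0.trans htr.symm) (hx y0 hy0)
    · omega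
  -- the colour
  obtain ⟨c, hc⟩ : ∃ c : Bool, ∀ y, D.p₁ (D.P n r) = some y → dig c (s r) < dig c (s (D.top y)) := by
    rcases hp : D.p₁ (D.P n r) with _ | y
    · exact ⟨true, fun y hy => absurd hy (by simp)⟩
    · by_cases h : dig true (s r) < dig true (s (D.top y))
      · exact ⟨true, fun y' hy' => by rw [← Option.some.inj hy']; exact h⟩
      · exact ⟨false, fun y' hy' => by
          rw [← Option.some.inj hy']
          exact dig_ne (hs _) (hs _) (k1 y hp) true h⟩
  let bad : ℕ → Prop := fun i => 1 ≤ i ∧ i < n ∧ ∃ w u, D.p₂ (D.P i r) = some w ∧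
    D.p₂ (D.P (i + 1) r) = some w ∧ D.l₂ w = 1 ∧ D.p₁ w = some u ∧ D.top u ≠ r ∧
    dig c (s r) < dig c (s (D.top u))
  have hex : ∃ i, 1 ≤ i ∧ (i = n ∨ bad i) := ⟨n, hn1, Or.inl rfl⟩
  let q := Nat.find hex
  have hq : 1 ≤ q ∧ (q = n ∨ bad q) := Nat.find_spec hex
  have hqmin : ∀ i, i < q → ¬ (1 ≤ i ∧ (i = n ∨ bad i)) := fun i hi => Nat.find_min hex hi
  have hqn : q ≤ n := Nat.find_min' hex ⟨hn1, Or.inl rfl⟩
  clear_value q
  have hch : D.Chain q r := hn.mono hqn
  have hte : D.top (D.P q r) = r := (hch.top le_rfl).trans htr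
  have hne : D.P q r ≠ r := by
    intro h
    have := hch.level le_rfl
    rw [h] at this
    omega
  have hle : 1 ≤ D.l₂ (D.P q r) := by
    by_contra hcon
    have h0 : D.l₂ (D.P q r) = 0 := by omega
    exact hne ((D.top_zero h0).symm.trans hte)
  have h2 := D.hd (D.P q r)
  by_cases hl1 : D.l₂ (D.P q r) = 1
  · -- level one
    obtain ⟨t, ht, hlt⟩ := D.some_of_pos (x := D.P q r) (by omega)
    have htr' : t = r := by
      have h3 := D.top_step ht
      rw [hte, D.top_zero (by omega : D.l₂ t = 0)] at h3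
      exact h3.symm
    subst htr'
    have hqe : q = n := by
      rcases hq.2 with h | ⟨-, -, w, u, hw, -, hw1, -⟩
      · exact h
      · have := (D.h2 _ _ hw).2
        omega
    refine ⟨c, false, D.P q t, D.P q t, D.P (q - 1) t, q, hq.1, hch, rfl, rfl, ht, Or.inl rfl,
      ?_, ?_, ?_⟩
    · intro y hy
      rw [hqe] at hy
      exact Or.inl (hc y hy)
    · intro h
      exact absurd h (by simp)
    · intro _ h
      have := (D.h2 _ _ h).2
      omega
  · obtain ⟨w, hw, hlw⟩ := D.some_of_pos (x := D.P q r) (by omega)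
    have hlw1 : D.l₂ w = 1 := by omega
    obtain ⟨t, ht, hlt⟩ := D.some_of_pos (x := w) (by omega)
    have htr' : t = r := by
      have h3 := D.top_step hw
      rw [hte, D.top_step ht, D.top_zero (by omega : D.l₂ t = 0)] at h3
      exact h3.symm
    subst htr'
    by_cases hu : ∃ u, D.p₁ w = some u ∧ D.top u ≠ t ∧ dig c (s t) < dig c (s (D.top u))
    · refine ⟨c, true, w, D.P q t, D.P (q - 1) t, q, hq.1, hch, rfl, rfl, ht, Or.inr hw, ?_, ?_, ?_⟩
      · intro y hy
        rcases hq.2 with h | ⟨-, hlt', w', u', hw1, hw2, -⟩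
        · rw [h] at hy
          exact Or.inl (hc y hy)
        · refine Or.inr ⟨rfl, ?_⟩
          rw [← D.P_some hy, hw2]
          exact hw1.symm.trans hw
      · refine fun _ => ⟨hw, hu, fun hz => ?_⟩
        have hq2 : 1 ≤ q - 1 := by
          by_contra hcon
          have h0 : q - 1 = 0 := by omega
          rw [h0, D.P_zero, D.none_of_zero hr0] at hz
          exact absurd hz (by simp)
        obtain ⟨u, hu1, hu2, hu3⟩ := hu
        refine hqmin (q - 1) (by omega) ⟨hq2, Or.inr ⟨hq2, by omega, w, u, hz, ?_, hlw1, hu1, hu2, hu3⟩⟩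
        have : q - 1 + 1 = q := by omega
        rw [this]
        exact hw
      · intro h
        exact absurd h (by simp)
    · have hqe : q = n := by
        rcases hq.2 with h | ⟨-, hlt', w', u', hw1, hw2, hw3, hw4, hw5, hw6⟩
        · exact h
        · have : w' = w := Option.some.inj (hw1.symm.trans hw)
          subst this
          exact absurd ⟨u', hw4, hw5, hw6⟩ hu
      refine ⟨c, false, w, D.P q t, D.P (q - 1) t, q, hq.1, hch, rfl, rfl, ht, Or.inr hw, ?_, ?_, ?_⟩
      · intro y hy
        rw [hqe] at hy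
        exact Or.inl (hc y hy)
      · intro h
        exact absurd h (by simp)
      · intro _ _ u hu1
        by_cases htu : D.top u = t
        · exact Or.inl htu
        · right
          refine dig_ne (hs _) (hs _) (k2 w u (by rw [← hqe]; exact hw) hu1 htu) c fun h => ?_
          exact hu ⟨u, hu1, htu, h⟩

end Dat

end Pool.Agent.H54.RP
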