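import Pool.Agent.H54.RP.Fix

/-! # The new orientation and its potentials -/

set_option autoImplicit false

namespace Pool.Agent.H54.RP

open SimpleGraph Pool.Agent.TH87.BD

namespace Dat

variable {V : Type*} (D : Dat V)

/-- `v` lies on the turned part of the path of its root. -/
def Rv (Q : V → ℕ) (v : V) : Prop :=
  D.Loop (D.top v) ∧ ∃ i, 1 ≤ i ∧ i < Q (D.top v) ∧ v = D.P i (D.top v)

open Classical in
/-- the new neighbour in the first forest -/
noncomputable def n1 (Q : V → ℕ) (v : V) : Option V :=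
  if D.Rv Q v then some (D.P (D.l₁ (D.top v) - D.l₁ v - 1) (D.top v)) else D.p₁ v

structure Sol (s t : V → ℕ) (C M : V → Bool) (W E Z : V → V) (Q : V → ℕ) : Prop where
  hs : ∀ x, 1 ≤ s x ∧ s x ≤ 9
  ht : ∀ x, 1 ≤ t x ∧ t x ≤ 9
  fx : ∀ r, D.Loop r → D.Fx s r (C r) (M r) (W r) (E r) (Z r) (Q r)
  k0 : ∀ r u, D.l₂ r = 0 → ¬ D.Loop r → D.p₁ r = some u → s r ≠ s (D.top u)
  g1 : ∀ v u, D.l₂ v = 1 → 1 ≤ D.l₂ u → D.n1 Q v = some u → t v ≠ t (D.mid u)
  g2 : ∀ v u, D.l₂ v = 2 → D.l₂ u = 2 → D.n1 Q v = some u → t v ≠ t u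

open Classical in
/-- letters at level one -/
noncomputable def L1 (t : V → ℕ) (C : V → Bool) (W : V → V) (x : V) : ℕ :=
  if D.Loop (D.top x) ∧ x = W (D.top x) then (if C (D.top x) = true then 10 else 0) else t x

open Classical in
/-- letters at level two -/
noncomputable def L2 (t : V → ℕ) (C M : V → Bool) (E : V → V) (x : V) : ℕ :=
  if D.Loop (D.top x) ∧ x = E (D.top x) then (if C (D.top x) = M (D.top x) then 0 else 10) else t x

/-- the potential without corrections -/
noncomputable def base (s t : V → ℕ) (C M : V → Bool) (W E : V → V) (c : Bool) (v : V) : ℕ :=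
  1728 * dig c (s (D.top v)) + 144 * (if 1 ≤ D.l₂ v then dig c (D.L1 t C W (D.mid v)) else 11) +
    12 * (if D.l₂ v = 2 then dig c (D.L2 t C M E v) else 11)

open Classical in
/-- the potential -/
noncomputable def pot (s t : V → ℕ) (C M : V → Bool) (W E : V → V) (c : Bool) (v : V) : ℕ :=
  if D.Loop (D.top v) ∧ v = W (D.top v) ∧ c = C (D.top v) then
    1728 * dig c (s (D.top v)) + 1717
  else if D.Loop (D.top v) ∧ v = E (D.top v) ∧ v ≠ W (D.top v) ∧ M (D.top v) = false ∧
      c = C (D.top v) then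
    1728 * dig c (s (D.top v)) + 1718
  else if D.Loop (D.top v) ∧ v = E (D.top v) ∧ v ≠ W (D.top v) ∧ M (D.top v) = true ∧
      c = !C (D.top v) then
    1728 * dig c (s (D.top v)) + 144 * dig c (D.L1 t C W (D.mid v)) + 133
  else D.base s t C M W E c v

theorem dig_le {k : ℕ} (h : k ≤ 10) (c : Bool) : dig c k ≤ 10 := by
  cases c
  · rw [dig_false]; omega
  · rw [dig_true]; omega

theorem dig_mid {k : ℕ} (h : 1 ≤ k ∧ k ≤ 9) (c : Bool) : 1 ≤ dig c k ∧ dig c k ≤ 9 := by
  cases c
  · rw [dig_false]; omega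
  · rw [dig_true]; omega

variable {D} {s t : V → ℕ} {C M : V → Bool} {W E Z : V → V} {Q : V → ℕ}

theorem Sol.L1_le (S : D.Sol s t C M W E Z Q) (x : V) : D.L1 t C W x ≤ 10 := by
  have := S.ht x
  unfold L1
  split_ifs <;> omega

theorem Sol.L2_le (S : D.Sol s t C M W E Z Q) (x : V) : D.L2 t C M E x ≤ 10 := by
  have := S.ht x
  unfold L2
  split_ifs <;> omega

theorem Sol.base_le_pot (S : D.Sol s t C M W E Z Q) (c : Bool) (v : V) :
    D.base s t C M W E c v ≤ D.pot s t C M W E c v := by
  have h1 := dig_le (S.L1_le (D.mid v)) c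
  have h2 := dig_le (S.L2_le v) c
  have h3 : D.base s t C M W E c v ≤ 1728 * dig c (s (D.top v)) + 1716 := by
    unfold base
    split_ifs <;> omega
  unfold pot
  split_ifs with ha hb hc
  · omega
  · omega
  · unfold base
    by_cases h4 : 1 ≤ D.l₂ v
    · rw [if_pos h4]
      split_ifs <;> omega
    · exfalso
      have h5 := (S.fx _ hc.1).hew
      rcases h5 with h5 | h5
      · exact hc.2.2.1 (hc.2.1.trans h5)
      · rw [← hc.2.1] at h5
        have := (D.h2 _ _ h5).2
        omega
  · exact le_rfl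

theorem Sol.pot_le (S : D.Sol s t C M W E Z Q) (c : Bool) (v : V) :
    D.pot s t C M W E c v ≤ 1728 * dig c (s (D.top v)) + 1718 := by
  have h1 := dig_le (S.L1_le (D.mid v)) c
  have h2 := dig_le (S.L2_le v) c
  unfold pot base
  split_ifs <;> omega

theorem Sol.pot_lt (S : D.Sol s t C M W E Z Q) (c : Bool) (v : V) :
    D.pot s t C M W E c v < 17280 := by
  have h1 := S.pot_le c v
  have h2 := dig_mid (S.hs (D.top v)) c
  omega

theorem Sol.ext_lt (S : D.Sol s t C M W E Z Q) (c : Bool) {v u : V}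
    (h : dig c (s (D.top v)) < dig c (s (D.top u))) :
    D.pot s t C M W E c v < D.pot s t C M W E c u := by
  have h1 := S.pot_le c v
  have h2 := S.base_le_pot c u
  unfold base at h2
  omega

/-- the vertices with the old rule -/
def Free (D : Dat V) (W E : V → V) (v : V) : Prop :=
  ¬ (D.Loop (D.top v) ∧ (v = D.top v ∨ v = W (D.top v) ∨ v = E (D.top v)))

theorem Sol.pot_free (v : V) (hv : D.Free W E v) (c : Bool) :
    D.pot s t C M W E c v = D.base s t C M W E c v := by
  unfold pot
  rw [if_neg, if_neg, if_neg]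
  · exact fun h => hv ⟨h.1, Or.inr (Or.inr h.2.1)⟩
  · exact fun h => hv ⟨h.1, Or.inr (Or.inr h.2.1)⟩
  · exact fun h => hv ⟨h.1, Or.inr (Or.inl h.2.1)⟩

theorem L1_free {v : V} (hv : D.Free W E v) : D.L1 t C W v = t v := by
  unfold L1
  rw [if_neg]
  exact fun h => hv ⟨h.1, Or.inr (Or.inl h.2)⟩

theorem L2_free {v : V} (hv : D.Free W E v) : D.L2 t C M E v = t v := by
  unfold L2
  rw [if_neg]
  exact fun h => hv ⟨h.1, Or.inr (Or.inr h.2)⟩

/-- up in the second forest -/
theorem Sol.up_lt (S : D.Sol s t C M W E Z Q) {v m : V} (hv : D.Free W E v)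
    (hm : D.p₂ v = some m) (c : Bool) : D.pot s t C M W E c v < D.pot s t C M W E c m := by
  refine lt_of_lt_of_le ?_ (S.base_le_pot c m)
  rw [Sol.pot_free v hv c]
  have hl := (D.h2 _ _ hm).2
  have h2 := D.hd v
  have h1 := dig_le (S.L1_le (D.mid v)) c
  have ht := D.top_step hm
  have h3 := dig_mid (S.ht v) c
  unfold base
  rw [ht, if_pos (by omega : 1 ≤ D.l₂ v)]
  by_cases h4 : D.l₂ v = 2
  · rw [if_pos h4, if_pos (by omega : 1 ≤ D.l₂ m), if_neg (by omega : ¬ D.l₂ m = 2), L2_free hv,
      D.mid_two h4 hm, D.mid_one (by omega : D.l₂ m = 1)]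
    omega
  · rw [if_neg h4, if_neg (by omega : ¬ 1 ≤ D.l₂ m), if_neg (by omega : ¬ D.l₂ m = 2)]
    omega

theorem Sol.n1_top (S : D.Sol s t C M W E Z Q) {v u : V} (hv : D.Rv Q v) (hu : D.n1 Q v = some u) :
    D.top u = D.top v := by
  unfold n1 at hu
  rw [if_pos hv] at hu
  obtain ⟨hl, i, hi1, hi2, hi3⟩ := hv
  have hF := S.fx _ hl
  have h1 := hF.ch.level (i := i) hi2.le
  rw [← hi3] at h1
  have h2 : D.l₁ (D.top v) - D.l₁ v - 1 = i - 1 := by omega
  rw [h2] at hu
  rw [← Option.some.inj hu, hF.ch.top (by omega), D.top_top]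

theorem Sol.n1_P (S : D.Sol s t C M W E Z Q) {r : V} (hl : D.Loop r) {i : ℕ} (hi : i + 1 < Q r) :
    D.n1 Q (D.P (i + 1) r) = some (D.P i r) := by
  have hF := S.fx _ hl
  have ht : D.top (D.P (i + 1) r) = r := (hF.ch.top (by omega)).trans (D.top_zero hl.1)
  have h1 := hF.ch.level (i := i + 1) hi.le
  unfold n1
  rw [if_pos]
  · rw [ht]
    have h2 : D.l₁ r - D.l₁ (D.P (i + 1) r) - 1 = i := by omega
    rw [h2]
  · unfold Rv
    rw [ht]
    exact ⟨hl, i + 1, by omega, hi, rfl⟩

theorem Sol.n1_adj (S : D.Sol s t C M W E Z Q) {v u : V} (hu : D.n1 Q v = some u) :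
    D.A.Adj v u := by
  by_cases hv : D.Rv Q v
  · obtain ⟨hl, i, hi1, hi2, hi3⟩ := hv
    obtain ⟨j, rfl⟩ : ∃ j, i = j + 1 := ⟨i - 1, by omega⟩
    have h1 := S.n1_P hl hi2
    rw [← hi3, hu] at h1
    have h2 := (S.fx _ hl).ch j (by omega)
    rw [Option.some.inj h1]
    have h3 := (D.h1 _ _ h2.1).1
    rw [← hi3] at h3
    exact h3.symm
  · unfold n1 at hu
    rw [if_neg hv] at hu
    exact (D.h1 _ _ hu).1

/-- along the first forest -/
theorem Sol.dich (S : D.Sol s t C M W E Z Q) {v u : V} (hv : D.Free W E v)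
    (hu : D.n1 Q v = some u) :
    ∃ c, D.pot s t C M W E c v < D.pot s t C M W E c u := by
  have hadj := S.n1_adj hu
  by_cases hab : s (D.top v) = s (D.top u)
  swap
  · have h1 := S.hs (D.top v)
    have h2 := S.hs (D.top u)
    by_cases h : dig true (s (D.top v)) < dig true (s (D.top u))
    · exact ⟨true, S.ext_lt true h⟩
    · exact ⟨false, S.ext_lt false (dig_ne (by omega) (by omega) hab true h)⟩
  have hred : (∃ c, D.base s t C M W E c v < D.base s t C M W E c u) →
      ∃ c, D.pot s t C M W E c v < D.pot s t C M W E c u := by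
    rintro ⟨c, hc⟩
    exact ⟨c, by rw [Sol.pot_free v hv c]; exact hc.trans_le (S.base_le_pot c u)⟩
  apply hred
  have h2 := D.hd v
  have h2u := D.hd u
  have hLv := S.L1_le (D.mid v)
  have hLu := S.L1_le (D.mid u)
  have hL2u := S.L2_le u
  have htv := S.ht v
  by_cases hl0 : D.l₂ v = 0
  · exfalso
    have htop := D.top_zero hl0
    have hnl : ¬ D.Loop v := fun h => hv ⟨by rw [htop]; exact h, Or.inl htop.symm⟩
    have hp : D.p₁ v = some u := by
      unfold n1 at hu
      rwa [if_neg] at hu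
      intro h
      have := h.1
      rw [htop] at this
      exact hnl this
    rw [htop] at hab
    exact S.k0 v u hl0 hnl hp hab
  by_cases hl1 : D.l₂ v = 1
  · by_cases hu0 : D.l₂ u = 0
    · refine ⟨true, ?_⟩
      unfold base
      rw [hab, if_pos (by omega : 1 ≤ D.l₂ v), if_neg (by omega : ¬ D.l₂ v = 2),
        if_neg (by omega : ¬ 1 ≤ D.l₂ u), if_neg (by omega : ¬ D.l₂ u = 2)]
      have := dig_le hLv true
      omega
    · have hne : D.L1 t C W (D.mid v) ≠ D.L1 t C W (D.mid u) := by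
        rw [D.mid_one hl1, L1_free hv]
        by_cases hsp : D.Loop (D.top (D.mid u)) ∧ D.mid u = W (D.top (D.mid u))
        · unfold L1
          rw [if_pos hsp]
          split_ifs <;> omega
        · have : D.L1 t C W (D.mid u) = t (D.mid u) := by
            unfold L1
            rw [if_neg hsp]
          rw [this]
          exact S.g1 v u hl1 (by omega) hu
      obtain ⟨c, hc⟩ : ∃ c, dig c (D.L1 t C W (D.mid v)) < dig c (D.L1 t C W (D.mid u)) := by
        by_cases h : dig true (D.L1 t C W (D.mid v)) < dig true (D.L1 t C W (D.mid u))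
        · exact ⟨true, h⟩
        · exact ⟨false, dig_ne hLv hLu hne true h⟩
      refine ⟨c, ?_⟩
      unfold base
      rw [hab, if_pos (by omega : 1 ≤ D.l₂ v), if_neg (by omega : ¬ D.l₂ v = 2),
        if_pos (by omega : 1 ≤ D.l₂ u)]
      omega
  · have hl2 : D.l₂ v = 2 := by omega
    by_cases hu0 : D.l₂ u = 0
    · refine ⟨true, ?_⟩
      unfold base
      rw [hab, if_pos (by omega : 1 ≤ D.l₂ v), if_pos hl2,
        if_neg (by omega : ¬ 1 ≤ D.l₂ u), if_neg (by omega : ¬ D.l₂ u = 2)]
      have := dig_le hLv true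
      have := dig_le (S.L2_le v) true
      omega
    · by_cases hne : D.L1 t C W (D.mid v) = D.L1 t C W (D.mid u)
      · by_cases hu1 : D.l₂ u = 1
        · refine ⟨true, ?_⟩
          unfold base
          rw [hab, if_pos (by omega : 1 ≤ D.l₂ v), if_pos hl2,
            if_pos (by omega : 1 ≤ D.l₂ u), if_neg (by omega : ¬ D.l₂ u = 2), hne]
          have := dig_le (S.L2_le v) true
          omega
        · have hu2 : D.l₂ u = 2 := by omega
          have hne2 : D.L2 t C M E v ≠ D.L2 t C M E u := by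
            rw [L2_free hv]
            by_cases hsp : D.Loop (D.top u) ∧ u = E (D.top u)
            · unfold L2
              rw [if_pos hsp]
              split_ifs <;> omega
            · have : D.L2 t C M E u = t u := by
                unfold L2
                rw [if_neg hsp]
              rw [this]
              exact S.g2 v u hl2 hu2 hu
          obtain ⟨c, hc⟩ : ∃ c, dig c (D.L2 t C M E v) < dig c (D.L2 t C M E u) := by
            by_cases h : dig true (D.L2 t C M E v) < dig true (D.L2 t C M E u)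
            · exact ⟨true, h⟩
            · exact ⟨false, dig_ne (S.L2_le v) hL2u hne2 true h⟩
          refine ⟨c, ?_⟩
          unfold base
          rw [hab, if_pos (by omega : 1 ≤ D.l₂ v), if_pos hl2,
            if_pos (by omega : 1 ≤ D.l₂ u), if_pos hu2, hne]
          omega
      · obtain ⟨c, hc⟩ : ∃ c, dig c (D.L1 t C W (D.mid v)) < dig c (D.L1 t C W (D.mid u)) := by
          by_cases h : dig true (D.L1 t C W (D.mid v)) < dig true (D.L1 t C W (D.mid u))
          · exact ⟨true, h⟩
          · exact ⟨false, dig_ne hLv hLu hne true h⟩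
        refine ⟨c, ?_⟩
        unfold base
        rw [hab, if_pos (by omega : 1 ≤ D.l₂ v), if_pos hl2,
          if_pos (by omega : 1 ≤ D.l₂ u)]
        have := dig_le (S.L2_le v) c
        omega

end Dat

end Pool.Agent.H54.RP
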