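import Pool.Agent.H54.RP.Sol

/-! # The turned vertices; every edge is used -/

set_option autoImplicit false

namespace Pool.Agent.H54.RP

open SimpleGraph Pool.Agent.TH87.BD

namespace Dat

variable {V : Type*} {D : Dat V} {s t : V → ℕ} {C M : V → Bool} {W E Z : V → V} {Q : V → ℕ}

/-- facts about a root whose path is turned -/
theorem Sol.facts (S : D.Sol s t C M W E Z Q) {r : V} (hl : D.Loop r) :
    D.top r = r ∧ D.top (W r) = r ∧ D.l₂ (W r) = 1 ∧ D.mid (W r) = W r ∧ D.top (E r) = r ∧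
      D.top (Z r) = r ∧ D.A.Adj (E r) (Z r) ∧ E r ≠ r ∧ W r ≠ r ∧
      (E r ≠ W r → D.p₂ (E r) = some (W r) ∧ D.l₂ (E r) = 2 ∧ D.mid (E r) = W r) := by
  have hF := S.fx r hl
  have h1 := D.top_zero hl.1
  have h2 : D.l₂ (W r) = 1 := by
    have := (D.h2 _ _ hF.hw).2
    have := hl.1
    omega
  have hq := hF.q1
  have h3 := hF.ch.level (i := Q r) le_rfl
  refine ⟨h1, ?_, h2, D.mid_one h2, ?_, ?_, ?_, ?_, ?_, ?_⟩
  · rw [D.top_step hF.hw, h1]
  · rw [hF.he, hF.ch.top le_rfl, h1]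
  · rw [hF.hz, hF.ch.top (by omega), h1]
  · have h4 := (hF.ch (Q r - 1) (by omega)).1
    rw [show Q r - 1 + 1 = Q r by omega, ← hF.he, ← hF.hz] at h4
    exact (D.h1 _ _ h4).1.symm
  · intro h
    rw [← hF.he, h] at h3
    omega
  · intro h
    rw [h, hl.1] at h2
    omega
  · intro hne
    have h5 : D.p₂ (E r) = some (W r) := by
      rcases hF.hew with h | h
      · exact absurd h hne
      · exact h
    have h6 : D.l₂ (E r) = 2 := by
      have := (D.h2 _ _ h5).2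
      omega
    exact ⟨h5, h6, D.mid_two h6 h5⟩

theorem Sol.dig_W (S : D.Sol s t C M W E Z Q) {r : V} (hl : D.Loop r) :
    dig (!C r) (D.L1 t C W (W r)) = 0 ∧ dig (C r) (D.L1 t C W (W r)) = 10 := by
  obtain ⟨-, h2, -⟩ := S.facts hl
  have h : D.L1 t C W (W r) = if C r = true then 10 else 0 := by
    unfold L1
    rw [if_pos (by rw [h2]; exact ⟨hl, rfl⟩), h2]
  rw [h]
  rcases hc : C r with _ | _ <;> simp [dig]

theorem Sol.dig_E (S : D.Sol s t C M W E Z Q) {r : V} (hl : D.Loop r) :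
    dig (if M r = true then C r else !C r) (D.L2 t C M E (E r)) = 0 := by
  obtain ⟨-, -, -, -, h5, -⟩ := S.facts hl
  have h : D.L2 t C M E (E r) = if C r = M r then 0 else 10 := by
    unfold L2
    rw [if_pos (by rw [h5]; exact ⟨hl, rfl⟩), h5]
  rw [h]
  rcases hc : C r with _ | _ <;> rcases hm : M r with _ | _ <;> simp [dig]

/-- the rest of the tree is higher than `W` in the second colour -/
theorem Sol.high (S : D.Sol s t C M W E Z Q) {r u : V} (hl : D.Loop r) (hu : D.top u = r)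
    (h : D.l₂ u = 0 ∨ D.mid u ≠ W r) :
    1728 * dig (!C r) (s r) + 144 ≤ D.pot s t C M W E (!C r) u := by
  refine le_trans ?_ (S.base_le_pot _ u)
  unfold base
  rw [hu]
  by_cases h0 : D.l₂ u = 0
  · rw [if_neg (by omega : ¬ 1 ≤ D.l₂ u)]
    omega
  · have h1 : 1 ≤ D.l₂ u := by omega
    have h2 : D.mid u ≠ W r := by
      rcases h with h | h
      · exact absurd h h0
      · exact h
    have h3 : D.L1 t C W (D.mid u) = t (D.mid u) := by
      unfold L1
      rw [if_neg]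
      rw [D.top_mid h1, hu]
      exact fun h => h2 h.2
    have h4 := dig_mid (S.ht (D.mid u)) (!C r)
    rw [if_pos h1, h3]
    omega

theorem Sol.pot_W (S : D.Sol s t C M W E Z Q) {r : V} (hl : D.Loop r) :
    D.pot s t C M W E (C r) (W r) = 1728 * dig (C r) (s r) + 1717 ∧
      D.pot s t C M W E (!C r) (W r) = 1728 * dig (!C r) (s r) + 132 := by
  obtain ⟨h1, h2, h3, h4, -⟩ := S.facts hl
  have h5 := S.dig_W hl
  constructor
  · unfold pot
    rw [if_pos (by rw [h2]; exact ⟨hl, rfl, rfl⟩), h2]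
  · unfold pot
    rw [if_neg (by rw [h2]; rintro ⟨-, -, h⟩; cases hc : C r <;> simp [hc] at h),
      if_neg (by rw [h2]; rintro ⟨-, -, h, -⟩; exact h rfl),
      if_neg (by rw [h2]; rintro ⟨-, -, h, -⟩; exact h rfl)]
    unfold base
    rw [h2, h4, if_pos (by omega : 1 ≤ D.l₂ (W r)), if_neg (by omega : ¬ D.l₂ (W r) = 2), h5.1]

theorem Sol.pot_E (S : D.Sol s t C M W E Z Q) {r : V} (hl : D.Loop r) (hne : E r ≠ W r) :
    (M r = false → D.pot s t C M W E (C r) (E r) = 1728 * dig (C r) (s r) + 1718 ∧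
      D.pot s t C M W E (!C r) (E r) = 1728 * dig (!C r) (s r)) ∧
    (M r = true → D.pot s t C M W E (C r) (E r) = 1728 * dig (C r) (s r) + 1440 ∧
      D.pot s t C M W E (!C r) (E r) = 1728 * dig (!C r) (s r) + 133) := by
  obtain ⟨h1, h2, h3, h4, h5, -, -, -, -, h6⟩ := S.facts hl
  obtain ⟨-, h7, h8⟩ := h6 hne
  have h9 := S.dig_W hl
  have h10 := S.dig_E hl
  refine ⟨fun hm => ⟨?_, ?_⟩, fun hm => ⟨?_, ?_⟩⟩
  · unfold pot
    rw [if_neg (by rw [h5]; rintro ⟨-, h, -⟩; exact hne h),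
      if_pos (by rw [h5]; exact ⟨hl, rfl, hne, hm, rfl⟩), h5]
  · rw [hm] at h10
    unfold pot
    rw [if_neg (by rw [h5]; rintro ⟨-, h, -⟩; exact hne h),
      if_neg (by rw [h5]; rintro ⟨-, -, -, -, h⟩; cases hc : C r <;> simp [hc] at h),
      if_neg (by rw [h5, hm]; rintro ⟨-, -, -, h, -⟩; exact absurd h (by simp))]
    unfold base
    rw [h5, h8, if_pos (by omega : 1 ≤ D.l₂ (E r)), if_pos h7, h9.1]
    simp only [Bool.false_eq_true, if_false] at h10
    rw [h10]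
    omega
  · rw [hm] at h10
    unfold pot
    rw [if_neg (by rw [h5]; rintro ⟨-, h, -⟩; exact hne h),
      if_neg (by rw [h5, hm]; rintro ⟨-, -, -, h, -⟩; exact absurd h (by simp)),
      if_neg (by rw [h5]; rintro ⟨-, -, -, -, h⟩; cases hc : C r <;> simp [hc] at h)]
    unfold base
    rw [h5, h8, if_pos (by omega : 1 ≤ D.l₂ (E r)), if_pos h7, h9.2]
    simp only [if_true] at h10
    rw [h10]
  · unfold pot
    rw [if_neg (by rw [h5]; rintro ⟨-, h, -⟩; exact hne h),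
      if_neg (by rw [h5, hm]; rintro ⟨-, -, -, h, -⟩; exact absurd h (by simp)),
      if_pos (by rw [h5]; exact ⟨hl, rfl, hne, hm, rfl⟩), h5, h8, h9.1]

/-- the new orientation -/
def Out (D : Dat V) (M : V → Bool) (W E Z : V → V) (Q : V → ℕ) (v y : V) : Prop :=
  (D.Free W E v ∧ (D.p₂ v = some y ∨ D.n1 Q v = some y)) ∨
  (D.Loop (D.top v) ∧ v = D.top v ∧ y = W (D.top v)) ∨
  (D.Loop (D.top v) ∧ v = W (D.top v) ∧ E (D.top v) = v ∧ (D.p₁ v = some y ∨ y = Z (D.top v))) ∨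
  (D.Loop (D.top v) ∧ v = W (D.top v) ∧ E (D.top v) ≠ v ∧ M (D.top v) = true ∧
    (D.p₁ v = some y ∨ y = E (D.top v))) ∨
  (D.Loop (D.top v) ∧ v = W (D.top v) ∧ E (D.top v) ≠ v ∧ M (D.top v) = false ∧
    (D.n1 Q v = some y ∨ y = E (D.top v))) ∨
  (D.Loop (D.top v) ∧ v = E (D.top v) ∧ v ≠ W (D.top v) ∧ (D.p₁ v = some y ∨ y = Z (D.top v)))

end Dat

end Pool.Agent.H54.RP
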